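import Pool.Agent.KDT.StmtsZ

/-!
# KDT, block Z, row STC: many translates lie on the same plane curve
-/

set_option autoImplicit false

namespace Pool.Agent.KDT.H98

open Polynomial H58Q Pool.Agent.SZT Pool.Agent.KDT.Z

section star

variable {k U : Type} [Field k] [Field U] [Algebra k U] {f : k[X]} {g : U[X]}
  {J : Type} [AddCommGroup J] {th : Pt g → J} {cl : (Fin 4 → U) → J}
  {act : (U ≃ₐ[k] U) → J →+ J} {Jk : AddSubgroup J}

/-- (*) of the header of StmtsZ -/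
theorem star (hJ : JK f g J th cl act Jk) {c : J} {q : Fin 4 → U} (hc : c ∈ Jk)
    (hg : Good g cl c q) : ∃ t : Fin 4 → k, On f t ∧ On g (emb U t) ∧ c = cl (emb U t) ∧
      rr (emb U t) q ≠ 0 ∧ ro (emb U t) q ≠ 0 := by
  obtain ⟨x, hx, hcx, h1, h2⟩ := hg
  rcases (hJ.mem_k c).1 hc with h | ⟨z, _, h⟩ | ⟨t, h3, h4, h5⟩
  · exact absurd (hcx.symm.trans h) (hJ.cl_ne x hx)
  · exact absurd (hcx.symm.trans h) (hJ.cl_th x z hx)
  · have h6 := hJ.cl_inj x (emb U t) hx h4 (hcx.symm.trans h5)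
    exact ⟨t, h3, h4, h5, h6 ▸ h1, h6 ▸ h2⟩

theorem zr_of_spc {q : Fin 4 → U} {t : Fin 4 → k} (h : Spc q t) {Φ : MvPolynomial (Fin 2) k}
    (hz : Zr Φ (q 0) (q 1)) : Zr Φ (t 0) (t 1) := by
  have e1 : q ∘ ![0, 1] = ![q 0, q 1] := by
    funext i
    fin_cases i <;> rfl
  have e2 : t ∘ ![0, 1] = ![t 0, t 1] := by
    funext i
    fin_cases i <;> rfl
  have h1 := h (MvPolynomial.rename ![0, 1] Φ) (by
    rw [MvPolynomial.aeval_rename, e1]
    exact hz)
  rw [MvPolynomial.eval_rename, e2] at h1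
  unfold Zr
  rw [MvPolynomial.aeval_eq_eval]
  exact h1

theorem zr_of_dvd {Φ Ψ : MvPolynomial (Fin 2) k} (h : Φ ∣ Ψ) {s p : U} (hz : Zr Φ s p) :
    Zr Ψ s p := by
  obtain ⟨c, rfl⟩ := h
  unfold Zr at hz ⊢
  rw [map_mul, hz, zero_mul]

end star

/-- the numbers -/
theorem numbers {m b N : ℕ} (hm : 0 < m) (hN : 1152 * m ^ 2 + 72 * m + 1024 * m ^ 2 * b + 32 * m + 1 ≤ N) :
    2 * (m * (6 * (Nat.sqrt (2 * N) + 3))) ≤ N ∧
      N + (32 * m) ^ 2 * b < 32 * m * (N / (8 * m)) := by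
  constructor
  · have h1 : Nat.sqrt (2 * N) * Nat.sqrt (2 * N) ≤ 2 * N := Nat.sqrt_le _
    have h2 : 12 * m * Nat.sqrt (2 * N) * 2 ≤ N := by
      by_contra hc
      push Not at hc
      have h3 : N * N < (12 * m * Nat.sqrt (2 * N) * 2) * (12 * m * Nat.sqrt (2 * N) * 2) :=
        Nat.mul_lt_mul'' hc hc
      have h4 : (12 * m * Nat.sqrt (2 * N) * 2) * (12 * m * Nat.sqrt (2 * N) * 2) =
          576 * m ^ 2 * (Nat.sqrt (2 * N) * Nat.sqrt (2 * N)) := by ring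
      rw [h4] at h3
      have h5 : 576 * m ^ 2 * (Nat.sqrt (2 * N) * Nat.sqrt (2 * N)) ≤ 576 * m ^ 2 * (2 * N) :=
        Nat.mul_le_mul_left _ h1
      have h6 : 576 * m ^ 2 * (2 * N) = 1152 * m ^ 2 * N := by ring
      have h7 : 1152 * m ^ 2 * N ≤ N * N := Nat.mul_le_mul_right _ (by omega)
      omega
    have h3 : 2 * (m * (6 * (Nat.sqrt (2 * N) + 3))) = 12 * m * Nat.sqrt (2 * N) + 36 * m := by
      ring
    rw [h3]
    omega
  · have h1 : N < 8 * m * (N / (8 * m)) + 8 * m := by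
      have h2 := Nat.lt_mul_div_succ N (show 0 < 8 * m by omega)
      rw [mul_add, mul_one] at h2
      exact h2
    have h2 : (32 * m) ^ 2 * b = 1024 * m ^ 2 * b := by ring
    have h3 : 32 * m * (N / (8 * m)) = 4 * (8 * m * (N / (8 * m))) := by ring
    rw [h2, h3]
    generalize 8 * m * (N / (8 * m)) = y at h1 ⊢
    generalize 1024 * m ^ 2 * b = z at hN ⊢
    generalize 1152 * m ^ 2 = x at hN
    omega

theorem zstc (trd : TrdStatement) (trs : TrsStatement) (cnb : CnbStatement) (lff : LffStatement)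
    (bez : BezStatement) (pig : PigStatement) (hemb : EmbStatement) (cma : CmaStatement) :
    StcStatement := by
  classical
  intro n m
  obtain ⟨n', hn'⟩ := trd n
  refine ⟨64 * m, 1152 * m ^ 2 + 72 * m + 1024 * m ^ 2 * (4 * n' ^ 4) + 32 * m + 1, ?_⟩
  intro k U _ _ _ f g hE J _ th cl act Jk hJ q Φ hq hgq hΦ0 hΦn hzq Γ hfin hΓk hN S hS hmS
  have hpos : 0 < Nat.card Γ := by omega
  have hm : 0 < m := by
    rcases Nat.eq_zero_or_pos m with h | h
    · subst h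
      omega
    · exact h
  obtain ⟨hnum1, hnum2⟩ := numbers (b := 4 * n' ^ 4) hm hN
  have := hE.kc
  have := hE.oc
  have := hE.ch
  obtain ⟨N, hNe⟩ : ∃ N, N = Nat.card Γ := ⟨_, rfl⟩
  obtain ⟨δ, hδ⟩ : ∃ δ, δ = 6 * (Nat.sqrt (2 * N) + 3) := ⟨_, rfl⟩
  rw [← hNe, ← hδ] at hnum1
  rw [← hNe] at hnum2 hpos hmS ⊢
  -- the group as a finite set
  obtain ⟨G, hG⟩ : ∃ G : Finset J, G = (Set.toFinite (Γ : Set J)).toFinset := ⟨_, rfl⟩
  have hmemG : ∀ c, c ∈ G ↔ c ∈ Γ := fun c => by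
    rw [hG, Set.Finite.mem_toFinset]
    rfl
  have hcardG : G.card = N := by
    rw [hG, hNe]
    have h1 := Set.ncard_eq_toFinset_card (Γ : Set J) (Set.toFinite (Γ : Set J))
    rw [← h1]
    exact (Nat.card_coe_set_eq (Γ : Set J)).symm
  have hbad : ∀ t : Fin 4 → U, On g t → (G.filter fun h => ¬ Good g cl h t).card ≤ δ := by
    intro t ht
    have h1 := cnb U g J th cl hJ.toJG Γ hfin 0 t ht
    rw [← hNe, ← hδ] at h1
    have h2 : ((G.filter fun h => ¬ Good g cl h t : Finset J) : Set J) =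
        {h : J | h ∈ Γ ∧ ¬ Good g cl (0 + h) t} := by
      ext c
      rw [Finset.mem_coe, Finset.mem_filter, hmemG]
      show _ ↔ (c ∈ Γ ∧ ¬ Good g cl (0 + c) t)
      rw [zero_add]
    rw [← h2, Set.ncard_coe_finset] at h1
    exact h1
  have hgood : ∀ (t : Fin 4 → U), On g t → ∀ S : Finset J, S ⊆ G →
      S.card ≤ (S.filter fun h => Good g cl h t).card + δ := by
    intro t ht S hSG
    have h1 := Finset.card_filter_add_card_filter_not (s := S) (fun h => Good g cl h t)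
    have h2 : (S.filter fun h => ¬ Good g cl h t).card ≤ δ :=
      (Finset.card_le_card (Finset.filter_subset_filter _ hSG)).trans (hbad t ht)
    omega
  have hSG : S ⊆ G := fun γ hγ => (hmemG γ).2 (hS γ hγ).1
  have hgf : g.coeff 4 = algebraMap k U (f.coeff 4) := by
    rw [hE.gm, Polynomial.coeff_map]
  -- the translates
  obtain ⟨T0, hT0⟩ : ∃ T0 : Finset J, T0 = G.filter fun h => Good g cl h q := ⟨_, rfl⟩
  have hT : ∀ τ ∈ T0, ∃ (t : Fin 4 → k) (Ψ : MvPolynomial (Fin 2) k), On f t ∧ On g (emb U t) ∧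
      τ = cl (emb U t) ∧ rr q (emb U t) ≠ 0 ∧ ro q (emb U t) ≠ 0 ∧
      Gnr k (cmp (g.coeff 4) q (emb U t)) ∧ Irreducible Ψ ∧ Ψ.totalDegree ≤ n' ∧
      Zr Ψ (cmp (g.coeff 4) q (emb U t) 0) (cmp (g.coeff 4) q (emb U t) 1) := by
    intro τ hτ
    rw [hT0, Finset.mem_filter, hmemG] at hτ
    obtain ⟨t, h1, h2, h3, h4, h5⟩ := star hJ (hΓk hτ.1) hτ.2
    rw [(cma.1 U (emb U t) q).1] at h4
    rw [(cma.1 U (emb U t) q).2] at h5
    obtain ⟨h6, Ψ, h7, h8, h9⟩ := hn' k U f g hE J th cl act Jk hJ q Φ hq hgq hΦ0 hΦn hzq t h1 h4 h5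
    exact ⟨t, Ψ, h1, h2, h3, h4, h5, h6, h7, h8, h9⟩
  choose! tt Ψ hT using hT
  have hS2 : ∀ γ ∈ S, ∃ t : Fin 4 → k, On f t ∧ γ = cl (emb U t) ∧ Spc q t :=
    fun γ hγ => (hS γ hγ).2
  choose! ts hts using hS2
  have e_rr : ∀ x t : Fin 4 → k, rr (emb U x) (emb U t) = algebraMap k U (rr x t) :=
    fun x t => (hemb k U f g hE.gm x t).1
  have e_ro : ∀ x t : Fin 4 → k, ro (emb U x) (emb U t) = algebraMap k U (ro x t) :=
    fun x t => (hemb k U f g hE.gm x t).2.1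
  have e_cmp : ∀ x t : Fin 4 → k, cmp (g.coeff 4) (emb U x) (emb U t) =
      emb U (cmp (f.coeff 4) x t) := by
    intro x t
    rw [hgf]
    exact (hemb k U f g hE.gm x t).2.2.1 (f.coeff 4)
  have e_on : ∀ t : Fin 4 → k, On g (emb U t) ↔ On f t :=
    fun t => (hemb k U f g hE.gm t t).2.2.2.1
  have e_inj : ∀ x t : Fin 4 → k, emb U x = emb U t → x = t :=
    fun x t => (hemb k U f g hE.gm x t).2.2.2.2.1
  -- the composition over `k`
  have hcomp : ∀ τ ∈ T0, ∀ γ ∈ S, Good g cl γ (emb U (tt τ)) →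
      On f (cmp (f.coeff 4) (ts γ) (tt τ)) ∧
      cl (emb U (cmp (f.coeff 4) (ts γ) (tt τ))) = γ + τ ∧
      Zr (Ψ τ) (cmp (f.coeff 4) (ts γ) (tt τ) 0) (cmp (f.coeff 4) (ts γ) (tt τ) 1) := by
    intro τ hτ γ hγ hgd
    obtain ⟨a1, a2, a3, a4, a5, a6, a7, a8, a9⟩ := hT τ hτ
    obtain ⟨b1, b2, b3⟩ := hts γ hγ
    have b4 : On g (emb U (ts γ)) := (e_on _).2 b1
    obtain ⟨x, hx, hcx, h1, h2⟩ := hgd
    have h3 := hJ.cl_inj x (emb U (ts γ)) hx b4 (hcx.symm.trans b2)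
    rw [h3] at h1 h2
    have h4 : rr (ts γ) (tt τ) ≠ 0 := by
      intro h0
      apply h1
      rw [e_rr, h0, map_zero]
    have h5 : ro (ts γ) (tt τ) ≠ 0 := by
      intro h0
      apply h2
      rw [e_ro, h0, map_zero]
    have h6 := hJ.comp (emb U (ts γ)) (emb U (tt τ)) b4 a2 h1 h2
    rw [e_cmp] at h6
    refine ⟨(e_on _).1 h6.1, ?_, ?_⟩
    · rw [← h6.2, ← b2, ← a3]
    · have h7 := trs k U (f.coeff 4) q (tt τ) (ts γ) b3 a4 a5 h4 h5
      rw [hgf] at a9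
      exact zr_of_spc h7 a9
  -- the plane points
  have hXfin : {x : Fin 4 → k | On f x ∧ cl (emb U x) ∈ Γ}.Finite := by
    refine Set.Finite.of_injOn (f := fun x => cl (emb U x)) (t := (Γ : Set J)) (fun x hx => hx.2)
      ?_ (Set.toFinite _)
    intro x hx y hy hxy
    have h1 := hJ.cl_inj _ _ ((e_on x).2 hx.1) ((e_on y).2 hy.1) hxy
    exact e_inj x y h1
  obtain ⟨P, hP⟩ : ∃ P : Finset (k × k), P = hXfin.toFinset.image fun x => (x 0, x 1) := ⟨_, rfl⟩
  have hPcard : P.card ≤ N := by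
    rw [hP]
    refine Finset.card_image_le.trans ?_
    rw [← hcardG]
    refine Finset.card_le_card_of_injOn (fun x => cl (emb U x)) ?_ ?_
    · intro x hx
      rw [Finset.mem_coe, Set.Finite.mem_toFinset] at hx
      rw [Finset.mem_coe]
      exact (hmemG _).2 hx.2
    · intro x hx y hy hxy
      rw [Finset.mem_coe, Set.Finite.mem_toFinset] at hx hy
      exact e_inj x y (hJ.cl_inj _ _ ((e_on x).2 hx.1) ((e_on y).2 hy.1) hxy)
  obtain ⟨Z, hZ⟩ : ∃ Z : J → Finset (k × k),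
      Z = fun τ => P.filter fun x => Zr (Ψ τ) x.1 x.2 := ⟨_, rfl⟩
  have hZs : ∀ τ, Z τ ⊆ P := fun τ => by
    rw [hZ]
    exact Finset.filter_subset _ _
  have hT0G : ∀ τ ∈ T0, τ ∈ Γ := by
    intro τ hτ
    rw [hT0, Finset.mem_filter, hmemG] at hτ
    exact hτ.1
  have hZcard : ∀ τ ∈ T0, N / (8 * m) ≤ (Z τ).card := by
    intro τ hτ
    have h1 := hgood (emb U (tt τ)) (hT τ hτ).2.1 S hSG
    have h2 : (S.filter fun h => Good g cl h (emb U (tt τ))).card ≤ 4 * (Z τ).card := by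
      refine Finset.card_le_mul_card_image_of_maps_to (f := fun γ =>
        (cmp (f.coeff 4) (ts γ) (tt τ) 0, cmp (f.coeff 4) (ts γ) (tt τ) 1)) ?_ 4 ?_
      · intro γ hγ
        rw [Finset.mem_filter] at hγ
        obtain ⟨c1, c2, c3⟩ := hcomp τ hτ γ hγ.1 hγ.2
        rw [hZ, Finset.mem_filter, hP, Finset.mem_image]
        refine ⟨⟨cmp (f.coeff 4) (ts γ) (tt τ), ?_, rfl⟩, c3⟩
        rw [Set.Finite.mem_toFinset]
        refine ⟨c1, ?_⟩
        rw [c2]
        exact Γ.add_mem (hS γ hγ.1).1 (hT0G τ hτ)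
      · intro b _
        obtain ⟨l1, l2⟩ := lff k f hE.sf b.1 b.2
        refine le_trans ?_ ((Set.ncard_le_ncard (s := (((S.filter fun h =>
          Good g cl h (emb U (tt τ))).filter fun γ => (cmp (f.coeff 4) (ts γ) (tt τ) 0,
            cmp (f.coeff 4) (ts γ) (tt τ) 1) = b).image fun γ => cmp (f.coeff 4) (ts γ) (tt τ) :
              Finset (Fin 4 → k))) ?_ l1).trans l2)
        · rw [Set.ncard_coe_finset, Finset.card_image_of_injOn]
          intro γ hγ γ' hγ' he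
          rw [Finset.mem_coe, Finset.mem_filter, Finset.mem_filter] at hγ hγ'
          have d1 := (hcomp τ hτ γ hγ.1.1 hγ.1.2).2.1
          have d2 := (hcomp τ hτ γ' hγ'.1.1 hγ'.1.2).2.1
          have he' : cmp (f.coeff 4) (ts γ) (tt τ) = cmp (f.coeff 4) (ts γ') (tt τ) := he
          rw [he', d2] at d1
          exact (add_right_cancel d1).symm
        · intro x hx
          rw [Finset.mem_coe, Finset.mem_image] at hx
          obtain ⟨γ, hγ, rfl⟩ := hx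
          rw [Finset.mem_filter, Finset.mem_filter] at hγ
          exact ⟨(hcomp τ hτ γ hγ.1.1 hγ.1.2).1, congrArg Prod.fst hγ.2, congrArg Prod.snd hγ.2⟩
    have h3 : m * S.card ≤ m * (4 * (Z τ).card + δ) := Nat.mul_le_mul_left m (by omega)
    rw [mul_add] at h3
    have h4 : m * (4 * (Z τ).card) * 2 = 8 * m * (Z τ).card := by ring
    refine Nat.div_le_of_le_mul ?_
    omega
  have hδm : δ ≤ m * δ := Nat.le_mul_of_pos_left δ hm
  have hT0card : N ≤ T0.card + δ := by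
    have h1 := hgood q hq G (Finset.Subset.refl G)
    rw [hcardG, ← hT0] at h1
    exact h1
  have hT0ne : T0.Nonempty := by
    rw [← Finset.card_pos]
    omega
  have heq : Equivalence (fun i j : J => Associated (Ψ i) (Ψ j)) :=
    ⟨fun i => Associated.refl _, fun h => h.symm, fun h h' => h.trans h'⟩
  obtain ⟨τ1, hτ1, hcard⟩ := pig (k × k) J T0 Z P (fun i j => Associated (Ψ i) (Ψ j)) (32 * m)
    (N / (8 * m)) (4 * n' ^ 4) N heq hPcard (fun i hi => ⟨hZs i, hZcard i hi⟩) (by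
      intro i hi j hj hij
      obtain ⟨_, _, _, _, _, _, a7, a8, _⟩ := hT i hi
      obtain ⟨_, _, _, _, _, _, b7, b8, _⟩ := hT j hj
      refine bez n' k (Ψ i) (Ψ j) a8 b8 a7 (fun hd => hij (a7.associated_of_dvd b7 hd)) _ ?_
      intro x hx
      rw [Finset.mem_inter, hZ, Finset.mem_filter, Finset.mem_filter] at hx
      exact ⟨hx.1.2, hx.2.2⟩) hnum2 hT0ne
  refine ⟨Ψ τ1, T0.filter fun j => Associated (Ψ τ1) (Ψ j), (hT τ1 hτ1).2.2.2.2.2.2.1, ?_, ?_⟩
  · have h1 : 64 * m * (T0.filter fun j => Associated (Ψ τ1) (Ψ j)).card =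
        2 * (32 * m * (T0.filter fun j => Associated (Ψ τ1) (Ψ j)).card) := by ring
    rw [h1]
    omega
  · intro τ hτ
    rw [Finset.mem_filter] at hτ
    obtain ⟨a1, a2, a3, a4, a5, a6, a7, a8, a9⟩ := hT τ hτ.1
    exact ⟨hT0G τ hτ.1, tt τ, a1, a3, a4, a5, a6, zr_of_dvd hτ.2.symm.dvd a9⟩

end Pool.Agent.KDT.H98
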